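import Pool.Agent.U84.AWQ.Stm
import Pool.Agent.R456.CL.Base3

set_option autoImplicit false

namespace Pool.Agent.U458.AWQ

open Pool.Agent.R456.CL Pool.Agent.U84.AWQ

universe u

section lem
variable {A : Type u} [CStarAlgebra A]

lemma cp_pj {z g : A} (hz : CP z) (hg : PJ g) : PJ (z * g) := by
  have hzz := PJ.mul_self hz.1
  have hgg := PJ.mul_self hg
  refine ⟨?_, ?_⟩
  · unfold IsIdempotentElem
    calc z * g * (z * g) = z * (g * z) * g := by simp only [mul_assoc]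
      _ = z * z * (g * g) := by rw [← hz.2 g]; simp only [mul_assoc]
      _ = z * g := by rw [hzz, hgg]
  · unfold IsSelfAdjoint
    rw [star_mul, PJ.star hz.1, PJ.star hg, hz.2 g]

lemma cp_mul {z w : A} (hz : CP z) (hw : CP w) : CP (z * w) := by
  refine ⟨cp_pj hz hw.1, fun x => ?_⟩
  rw [mul_assoc, hw.2 x, ← mul_assoc, hz.2 x, mul_assoc]

lemma pi_cut {z g : A} (hz : CP z) (hg : PI g) : PI (z * g) := by
  refine ⟨cp_pj hz hg.1, fun w hw hne => ?_⟩
  rw [← mul_assoc] at hne ⊢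
  exact hg.2 _ (cp_mul hw hz) hne

lemma small_cut {z g s : A} (hz : CP z) (h : Small g s) : Small (z * g) (z * s) := by
  intro w hw hne hs
  rw [← mul_assoc] at hne hs
  rw [← mul_assoc] at hs
  exact h _ (cp_mul hw hz) hne hs

end lem

theorem t_MAIN : S_MAIN.{u} := by
  intro A _ hM1 hM3 hJ g T hPI hg0 hgT hTg
  have hg : PJ g := hPI.1
  have hgg := PJ.mul_self hg
  by_cases hA : ∃ z : A, CP z ∧ z * g ≠ 0 ∧ CA 4000 (z * g) (z * T)
  · obtain ⟨z, hz, hz0, hc⟩ := hA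
    exact ⟨z, hz, hz0, Or.inl hc⟩
  have hM := hM1 (1 / 1000) (by norm_num) g T hPI hgT hTg (fun z hz hz0 hc => hA ⟨z, hz, hz0, by
    have e : (4 / (1 / 1000) : ℝ) = 4000 := by norm_num
    rwa [e] at hc⟩)
  have hsTg : star T * g = star T := star_absorb_left hg hgT
  have hhalf : ‖(1 / 2 : ℂ)‖ = 1 / 2 := by norm_num
  -- the bound for combinations
  have hcomb : ∀ (c d : ℂ) (e k : A), ‖c‖ = 1 / 2 → ‖d‖ = 1 →
      ‖(g - e) * T * e * (g - k)‖ ≤ 1 / 1000 → ‖(g - e) * star T * e * (g - k)‖ ≤ 1 / 1000 →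
      ‖(g - e) * (c • (T + d • star T)) * e * (g - k)‖ ≤ 1 / 1000 := by
    intro c d e k hc hd h1 h2
    have : (g - e) * (c • (T + d • star T)) * e * (g - k)
        = c • ((g - e) * T * e * (g - k) + d • ((g - e) * star T * e * (g - k))) := by
      simp only [mul_smul_comm, smul_mul_assoc, mul_add, add_mul]
    rw [this, norm_smul, hc]
    have h3 : ‖(g - e) * T * e * (g - k) + d • ((g - e) * star T * e * (g - k))‖ ≤ 1 / 1000 + 1 / 1000 := by
      refine (norm_add_le _ _).trans (add_le_add h1 ?_)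
      rw [norm_smul, hd, one_mul]; exact h2
    linarith
  set a1 : A := (1 / 2 : ℂ) • (T + (1 : ℂ) • star T) with ha1
  set b : A := (-(Complex.I / 2) : ℂ) • (T + (-1 : ℂ) • star T) with hb
  have ha1s : star a1 = a1 := by
    rw [ha1, one_smul, star_smul, star_add, star_star, add_comm]; congr 1; simp
  have hbs : star b = b := by
    rw [hb, star_smul, star_add, star_smul, star_star]
    have : star (-(Complex.I / 2)) = Complex.I / 2 := by
      simp [Complex.conj_I, neg_div]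
    rw [this]
    simp only [star_neg, star_one, smul_add, smul_smul]
    rw [add_comm]
    congr 1
    · congr 1; ring
    · congr 1; ring
  have ha1g : a1 * g = a1 := by
    rw [ha1, smul_mul_assoc, add_mul, smul_mul_assoc, hTg, hsTg]
  have hbg : b * g = b := by
    rw [hb, smul_mul_assoc, add_mul, smul_mul_assoc, hTg, hsTg]
  obtain ⟨z1, hz1, hz10, s1, c1, hs1, hs1g, hsm1, hn1⟩ := hM3 g a1 hPI hg0 ha1s ha1g (by
    intro e he heg
    obtain ⟨k, hk, hkg, hks, hk1, hk2⟩ := hM e he heg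
    exact ⟨k, hk, hkg, hks, hcomb _ _ e k hhalf (by simp) hk1 hk2⟩)
  have hz1z := PJ.mul_self hz1.1
  have hz1n : ‖z1‖ ≤ 1 := pj_norm_le hz1.1
  have hPI1 : PI (z1 * g) := pi_cut hz1 hPI
  have hs2' : star (z1 * b) = z1 * b := by
    rw [star_mul, hbs, PJ.star hz1.1, hz1.2 b]
  have hmz : ∀ x y : A, z1 * x * (z1 * y) = z1 * (x * y) := by
    intro x y
    calc z1 * x * (z1 * y) = z1 * (x * z1) * y := by simp only [mul_assoc]
      _ = z1 * z1 * (x * y) := by rw [← hz1.2 x]; simp only [mul_assoc]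
      _ = z1 * (x * y) := by rw [hz1z]
  have hbg' : z1 * b * (z1 * g) = z1 * b := by rw [hmz, hbg]
  obtain ⟨z2, hz2, hz20, s2, c2, hs2, hs2g, hsm2, hn2⟩ := hM3 (z1 * g) (z1 * b) hPI1 hz10 hs2' hbg' (by
    intro e he heg
    have heg0 : e * (z1 * g) = e := heg
    have hz1e : z1 * e = e := by
      have e1 : e = e * z1 * g := by rw [mul_assoc]; exact heg0.symm
      calc z1 * e = z1 * (e * (z1 * g)) := by rw [heg0]
        _ = z1 * (z1 * e * g) := by rw [hz1.2 e]; simp only [mul_assoc]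
        _ = z1 * e * g := by rw [← mul_assoc, ← mul_assoc, hz1z]
        _ = e * (z1 * g) := by rw [hz1.2 e, mul_assoc]
        _ = e := heg0
    have heg1 : Le e g := by
      show e * g = e
      calc e * g = e * (z1 * g) * g := by rw [heg0]
        _ = e * (z1 * (g * g)) := by simp only [mul_assoc]
        _ = e := by rw [hgg, heg0]
    obtain ⟨k, hk, hkg, hks, hk1, hk2⟩ := hM e he heg1
    refine ⟨z1 * k, cp_pj hz1 hk, ?_, small_cut hz1 hks, ?_⟩
    · show z1 * k * (z1 * g) = z1 * k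
      rw [hmz]; congr 1
    · have e1 : (z1 * g - e) * (z1 * b) * e * (z1 * g - z1 * k) = z1 * ((g - e) * b * e * (g - k)) := by
        have f1 : z1 * g - e = z1 * (g - e) := by rw [mul_sub, hz1e]
        have f2 : z1 * g - z1 * k = z1 * (g - k) := by rw [mul_sub]
        rw [f1, f2, hmz]
        conv_lhs => rw [← hz1e]
        rw [hmz, hmz]
        conv_rhs => rw [← hz1e]
        rw [hz1e]
      rw [e1]
      have h3 := hcomb (-(Complex.I / 2)) (-1) e k (by simp) (by simp) hk1 hk2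
      refine (norm_mul_le _ _).trans ?_
      calc ‖z1‖ * _ ≤ 1 * (1 / 1000) := mul_le_mul hz1n h3 (norm_nonneg _) zero_le_one
        _ = 1 / 1000 := one_mul _)
  -- the cut
  have hz : CP (z2 * z1) := cp_mul hz2 hz1
  have hG : z2 * z1 * g = z2 * (z1 * g) := mul_assoc _ _ _
  have hPG : PI (z2 * (z1 * g)) := pi_cut hz2 hPI1
  have hs1p : PJ (z2 * s1) := cp_pj hz2 hs1
  have hz2z := PJ.mul_self hz2.1
  have hmz2 : ∀ x y : A, z2 * x * (z2 * y) = z2 * (x * y) := by
    intro x y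
    calc z2 * x * (z2 * y) = z2 * (x * z2) * y := by simp only [mul_assoc]
      _ = z2 * z2 * (x * y) := by rw [← hz2.2 x]; simp only [mul_assoc]
      _ = z2 * (x * y) := by rw [hz2z]
  obtain ⟨k, hk, hkG, hs1k, hs2k, hsmk⟩ := hJ (z2 * (z1 * g)) (z2 * s1) s2 hPG hs1p hs2 (by
      show z2 * s1 * (z2 * (z1 * g)) = z2 * s1
      rw [hmz2]; congr 1) hs2g (small_cut hz2 hsm1) hsm2
  refine ⟨z2 * z1, hz, by rw [hG]; exact hz20, Or.inr ⟨k, (c1 : ℂ) + Complex.I * (c2 : ℂ), hk, ?_, ?_, ?_⟩⟩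
  · rw [hG]; exact hkG
  · rw [hG]; exact hsmk
  rw [hG]
  set G := z2 * (z1 * g) with hGd
  have hGp : PJ G := hPG.1
  have hGG := PJ.mul_self hGp
  have hkG' : G * k = k := hkG.rev hk hGp
  have hPk : PJ (G - k) := pj_sub hk hGp hkG
  have hPkn : ‖G - k‖ ≤ 1 := pj_norm_le hPk
  -- absorptions
  have hz1G : z1 * G = G := by
    rw [hGd, ← mul_assoc, ← hz2.2 z1, mul_assoc, ← mul_assoc z1 z1, hz1z]
  have hz2G : z2 * G = G := by
    rw [hGd, ← mul_assoc, hz2z]
  have hgG : g * G = G := by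
    rw [hGd, ← mul_assoc, ← hz2.2 g, mul_assoc, ← mul_assoc g z1, ← hz1.2 g, mul_assoc z1, hgg]
  have habs : ∀ y : A, y * G = G → y * (G - k) = G - k := by
    intro y hy
    have : y * k = k := by
      calc y * k = y * (G * k) := by rw [hkG']
        _ = y * G * k := (mul_assoc y G k).symm
        _ = k := by rw [hy, hkG']
    rw [mul_sub, hy, this]
  have q1 := habs z1 hz1G
  have q2 := habs z2 hz2G
  have q3 := habs g hgG
  have q4 : (g - s1) * (G - k) = G - k := by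
    have h1 : s1 * (G - k) = 0 := by
      have e1 : z2 * s1 * G = z2 * s1 := by
        show z2 * s1 * (z2 * (z1 * g)) = z2 * s1
        rw [hmz2]; congr 1
      have e2 : z2 * s1 * k = z2 * s1 := hs1k
      calc s1 * (G - k) = s1 * (z2 * (G - k)) := by rw [q2]
        _ = z2 * s1 * (G - k) := by rw [← mul_assoc, hz2.2 s1]
        _ = 0 := by rw [mul_sub, e1, e2, sub_self]
    rw [sub_mul, q3, h1, sub_zero]
  have q5 : (z1 * g - s2) * (G - k) = G - k := by
    have h1 : s2 * (G - k) = 0 := by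
      have e1 : s2 * G = s2 := hs2g
      have e2 : s2 * k = s2 := hs2k
      rw [mul_sub, e1, e2, sub_self]
    rw [sub_mul, mul_assoc, q3, q1, h1, sub_zero]
  have b1 : ‖z1 * (a1 - (c1 : ℂ) • g) * (G - k)‖ ≤ 1 / 32 := by
    rw [← q4, ← mul_assoc]
    refine (norm_mul_le _ _).trans ?_
    calc _ ≤ 1 / 32 * 1 := mul_le_mul hn1 hPkn (norm_nonneg _) (by norm_num)
      _ = _ := mul_one _
  have b2 : ‖z2 * (z1 * b - (c2 : ℂ) • (z1 * g)) * (G - k)‖ ≤ 1 / 32 := by
    rw [← q5, ← mul_assoc]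
    refine (norm_mul_le _ _).trans ?_
    calc _ ≤ 1 / 32 * 1 := mul_le_mul hn2 hPkn (norm_nonneg _) (by norm_num)
      _ = _ := mul_one _
  have e2 : (b - (c2 : ℂ) • g) * (G - k) = z2 * (z1 * b - (c2 : ℂ) • (z1 * g)) * (G - k) := by
    have f1 : z1 * b - (c2 : ℂ) • (z1 * g) = z1 * (b - (c2 : ℂ) • g) := by
      rw [mul_sub, mul_smul_comm (c2 : ℂ) z1 g]
    rw [f1]
    calc (b - (c2 : ℂ) • g) * (G - k) = (b - (c2 : ℂ) • g) * (z2 * (z1 * (G - k))) := by rw [q1, q2]
      _ = z2 * (z1 * (b - (c2 : ℂ) • g)) * (G - k) := by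
          rw [← mul_assoc _ z2, ← hz2.2, ← mul_assoc _ z1, mul_assoc z2, ← hz1.2]
  have e1 : (a1 - (c1 : ℂ) • g) * (G - k) = z1 * (a1 - (c1 : ℂ) • g) * (G - k) := by
    calc (a1 - (c1 : ℂ) • g) * (G - k) = (a1 - (c1 : ℂ) • g) * (z1 * (G - k)) := by rw [q1]
      _ = z1 * (a1 - (c1 : ℂ) • g) * (G - k) := by rw [← mul_assoc, ← hz1.2]
  have hT : T - ((c1 : ℂ) + Complex.I * (c2 : ℂ)) • g
      = (a1 - (c1 : ℂ) • g) + Complex.I • (b - (c2 : ℂ) • g) := by
    have i1 : Complex.I * -(Complex.I / 2) = 1 / 2 := by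
      have := Complex.I_mul_I
      linear_combination (-1 / 2 : ℂ) * this
    rw [ha1, hb, one_smul, smul_sub, smul_smul, smul_smul, i1, add_smul]
    simp only [smul_add, smul_smul]
    have : T = (1 / 2 : ℂ) • T + (1 / 2 : ℂ) • T := by
      rw [← add_smul]; norm_num
    have h3 : (1 / 2 * -1 : ℂ) • star T = - ((1 / 2 : ℂ) • star T) := by
      rw [← neg_smul]; norm_num
    rw [h3]
    conv_lhs => rw [this]
    abel
  have b3 : ‖(T - ((c1 : ℂ) + Complex.I * (c2 : ℂ)) • g) * (G - k)‖ ≤ 1 / 16 := by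
    rw [hT, add_mul, smul_mul_assoc, e1, e2]
    refine (norm_add_le _ _).trans ?_
    rw [norm_smul, Complex.norm_I, one_mul]
    linarith
  rw [mul_assoc]
  refine (norm_mul_le _ _).trans ?_
  calc ‖G - k‖ * ‖(T - ((c1 : ℂ) + Complex.I * (c2 : ℂ)) • g) * (G - k)‖ ≤ 1 * (1 / 16) :=
        mul_le_mul hPkn b3 (norm_nonneg _) (by norm_num)
    _ ≤ 1 / 4 := by norm_num

end Pool.Agent.U458.AWQ
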